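import Pool.Agent.H240.IX.DefG

/-!
# Intervals of quantum limits: approximation by functions constant near the centre and far away
-/

set_option autoImplicit false

open Set Filter Topology
open scoped ContDiff Manifold

namespace Pool.Agent.H216.IX

theorem app (L : ℝ) (hL : 0 < L) (P : ℝ → ℝ) (c : ℝ) (hP : Continuous P)
    (hfar : ∀ x, 4 / 5 * L ≤ |x - L / 2| → P x = c) (ε : ℝ) (hε : 0 < ε) :
    ∃ (Q : ℝ → ℝ) (α : ℝ), 0 < α ∧ ContDiff ℝ ∞ Q ∧ (∀ x, |x - L / 2| ≤ α → Q x = 0) ∧
      (∀ x, 9 / 10 * L ≤ |x - L / 2| → Q x = c - P (L / 2)) ∧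
      ∀ x, |P x - P (L / 2) - Q x| < ε := by
  obtain ⟨δ, hδ, hδ2⟩ := Metric.continuous_iff.1 hP (L / 2) ε hε
  let α : ℝ := min (δ / 2) (L / 4)
  have hα : 0 < α := lt_min (by linarith) (by linarith)
  have hαδ : α < δ := lt_of_le_of_lt (min_le_left _ _) (by linarith)
  have hαL : α < 4 / 5 * L := lt_of_le_of_lt (min_le_right _ _) (by linarith)
  let t : ℝ → Set ℝ := fun x => {v : ℝ | |P x - P (L / 2) - v| < ε ∧
    (|x - L / 2| ≤ α → v = 0) ∧ (9 / 10 * L ≤ |x - L / 2| → v = c - P (L / 2))}
  have ht : ∀ x, Convex ℝ (t x) := by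
    intro x v hv w hw a b ha hb hab
    refine ⟨?_, ?_, ?_⟩
    · have h1 : v ∈ Metric.ball (P x - P (L / 2)) ε := by
        rw [Metric.mem_ball, Real.dist_eq, abs_sub_comm]
        exact hv.1
      have h2 : w ∈ Metric.ball (P x - P (L / 2)) ε := by
        rw [Metric.mem_ball, Real.dist_eq, abs_sub_comm]
        exact hw.1
      have h3 := convex_ball (P x - P (L / 2)) ε h1 h2 ha hb hab
      rw [Metric.mem_ball, Real.dist_eq, abs_sub_comm] at h3
      exact h3
    · intro h
      rw [hv.2.1 h, hw.2.1 h, smul_zero, smul_zero, add_zero]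
    · intro h
      rw [hv.2.2 h, hw.2.2 h, ← add_smul, hab, one_smul]
  have hloc : ∀ x : ℝ, ∃ v : ℝ, ∀ᶠ y in 𝓝 x, v ∈ t y := by
    intro x
    have hcont : Continuous fun y : ℝ => |y - L / 2| := (continuous_id.sub continuous_const).abs
    rcases lt_or_ge (|x - L / 2|) δ with h1 | h1
    · rcases lt_or_ge (|x - L / 2|) (4 / 5 * L + L / 20) with h2 | h2
      · rcases lt_or_ge α (|x - L / 2|) with h3 | h3
        · refine ⟨P x - P (L / 2), ?_⟩
          have c1 : ∀ᶠ y in 𝓝 x, |P y - P x| < ε := by
            have := (hP.tendsto x).eventually (Metric.ball_mem_nhds (P x) hε)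
            exact this
          have c2 : ∀ᶠ y in 𝓝 x, α < |y - L / 2| :=
            (hcont.tendsto x).eventually (lt_mem_nhds h3)
          have c3 : ∀ᶠ y in 𝓝 x, |y - L / 2| < 4 / 5 * L + L / 20 :=
            (hcont.tendsto x).eventually (gt_mem_nhds h2)
          filter_upwards [c1, c2, c3] with y d1 d2 d3
          refine ⟨?_, fun h => absurd h (not_le.2 d2), fun h => ?_⟩
          · have e : P y - P (L / 2) - (P x - P (L / 2)) = P y - P x := by ring
            rw [e]
            exact d1
          · exfalso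
            linarith
        · refine ⟨0, ?_⟩
          have c1 : ∀ᶠ y in 𝓝 x, |y - L / 2| < δ :=
            (hcont.tendsto x).eventually (gt_mem_nhds h1)
          have c3 : ∀ᶠ y in 𝓝 x, |y - L / 2| < 4 / 5 * L + L / 20 :=
            (hcont.tendsto x).eventually (gt_mem_nhds h2)
          filter_upwards [c1, c3] with y d1 d3
          refine ⟨?_, fun _ => rfl, fun h => ?_⟩
          · rw [sub_zero]
            exact hδ2 y d1
          · exfalso
            linarith
      · refine ⟨c - P (L / 2), ?_⟩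
        have c2 : ∀ᶠ y in 𝓝 x, 4 / 5 * L < |y - L / 2| :=
          (hcont.tendsto x).eventually (lt_mem_nhds (by linarith))
        filter_upwards [c2] with y d2
        refine ⟨?_, fun h => ?_, fun _ => rfl⟩
        · rw [hfar y d2.le, sub_self, abs_zero]
          exact hε
        · exfalso
          linarith
    · rcases lt_or_ge (|x - L / 2|) (4 / 5 * L + L / 20) with h2 | h2
      · refine ⟨P x - P (L / 2), ?_⟩
        have c1 : ∀ᶠ y in 𝓝 x, |P y - P x| < ε := by
          have := (hP.tendsto x).eventually (Metric.ball_mem_nhds (P x) hε)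
          exact this
        have c2 : ∀ᶠ y in 𝓝 x, α < |y - L / 2| :=
          (hcont.tendsto x).eventually (lt_mem_nhds (by linarith))
        have c3 : ∀ᶠ y in 𝓝 x, |y - L / 2| < 4 / 5 * L + L / 20 :=
          (hcont.tendsto x).eventually (gt_mem_nhds h2)
        filter_upwards [c1, c2, c3] with y d1 d2 d3
        refine ⟨?_, fun h => absurd h (not_le.2 d2), fun h => ?_⟩
        · have e : P y - P (L / 2) - (P x - P (L / 2)) = P y - P x := by ring
          rw [e]
          exact d1
        · exfalso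
          linarith
      · refine ⟨c - P (L / 2), ?_⟩
        have c2 : ∀ᶠ y in 𝓝 x, 4 / 5 * L < |y - L / 2| :=
          (hcont.tendsto x).eventually (lt_mem_nhds (by linarith))
        filter_upwards [c2] with y d2
        refine ⟨?_, fun h => ?_, fun _ => rfl⟩
        · rw [hfar y d2.le, sub_self, abs_zero]
          exact hε
        · exfalso
          linarith
  obtain ⟨g, hg⟩ := exists_contMDiffMap_forall_mem_convex_of_local_const (n := ⊤) 𝓘(ℝ, ℝ) ht hloc
  refine ⟨g, α, hα, g.contMDiff.contDiff, fun x hx => (hg x).2.1 hx, fun x hx => (hg x).2.2 hx,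
    fun x => (hg x).1⟩

open Pool.Agent.H240.IX in
theorem stApp : StApp := by
  intro P c hP hfar ε hε
  obtain ⟨Q, α, h1, h2, h3, h4, h5⟩ := app _ Pool.Agent.H240.SG.L0p P c hP hfar ε hε
  exact ⟨Q, α, ⟨h1, h2, h3, h4⟩, h5⟩

end Pool.Agent.H216.IX
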